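import Mathlib

set_option autoImplicit false

namespace Pool.Agent.Results.MP_b00f03_nt.NoRootlessTree

/-- The open first quadrant of the subfield `K` of the complex numbers. -/
def D0 (K : Subfield ℂ) : Set ℂ := {z : ℂ | z ∈ K ∧ 0 < z.re ∧ 0 < z.im}

/-- `T` is a `2 × 2` matrix of nonnegative integers with determinant one: `ad = bc + 1`. -/
def IsSL2N (T : Matrix (Fin 2) (Fin 2) ℕ) : Prop := T 0 0 * T 1 1 = T 0 1 * T 1 0 + 1

/-- The linear fractional transformation `z ↦ (az + b) / (cz + d)`. -/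
noncomputable def act (T : Matrix (Fin 2) (Fin 2) ℕ) (z : ℂ) : ℂ :=
  ((T 0 0 : ℂ) * z + (T 0 1 : ℂ)) / ((T 1 0 : ℂ) * z + (T 1 1 : ℂ))

/-- Left-right pairs (over the field `K`). -/
structure IsLeftRightPair (K : Subfield ℂ) (L R : Matrix (Fin 2) (Fin 2) ℕ) : Prop where
  left_mem : IsSL2N L
  right_mem : IsSL2N R
  left_ne_one : L ≠ 1
  right_ne_one : R ≠ 1
  disjoint_images : act L '' D0 K ∩ act R '' D0 K = ∅

/-- `z → w` is an edge of the directed graph: `w = L(z)` or `w = R(z)`. -/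
def Edge (L R : Matrix (Fin 2) (Fin 2) ℕ) (z w : ℂ) : Prop := w = act L z ∨ w = act R z

/-- The underlying undirected graph of the forest `F(L, R)`, with vertex set `D0`. -/
def forest (K : Subfield ℂ) (L R : Matrix (Fin 2) (Fin 2) ℕ) : SimpleGraph (D0 K) :=
  SimpleGraph.fromRel (fun z w => Edge L R z w)

/-- A vertex is an orphan if it has no parent in `D0`. -/
def IsOrphan (K : Subfield ℂ) (L R : Matrix (Fin 2) (Fin 2) ℕ) (w : D0 K) : Prop :=
  ∀ z : D0 K, ¬ Edge L R z w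

/-- A connected component of the forest is rootless if it contains no orphan. -/
def IsRootless {K : Subfield ℂ} {L R : Matrix (Fin 2) (Fin 2) ℕ}
    (C : (forest K L R).ConnectedComponent) : Prop :=
  ∀ z ∈ C.supp, ¬ IsOrphan K L R z

/-- sum of the entries -/
def tot (T : Matrix (Fin 2) (Fin 2) ℕ) : ℕ := T 0 0 + T 0 1 + T 1 0 + T 1 1

lemma pos_of {T : Matrix (Fin 2) (Fin 2) ℕ} (h : IsSL2N T) : 1 ≤ T 0 0 ∧ 1 ≤ T 1 1 := by
  unfold IsSL2N at h
  constructor
  · by_contra hc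
    have : T 0 0 = 0 := by omega
    rw [this, zero_mul] at h
    omega
  · by_contra hc
    have : T 1 1 = 0 := by omega
    rw [this, mul_zero] at h
    omega

lemma mul_mem {M T : Matrix (Fin 2) (Fin 2) ℕ} (hM : IsSL2N M) (hT : IsSL2N T) :
    IsSL2N (M * T) := by
  unfold IsSL2N at *
  simp only [Matrix.mul_apply, Fin.sum_univ_two]
  have hM' : (M 0 0 : ℤ) * M 1 1 = M 0 1 * M 1 0 + 1 := by exact_mod_cast hM
  have hT' : (T 0 0 : ℤ) * T 1 1 = T 0 1 * T 1 0 + 1 := by exact_mod_cast hT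
  zify
  linear_combination (T 0 0 * T 1 1 - T 0 1 * T 1 0 : ℤ) * hM' + hT'

lemma tot_mul {M T : Matrix (Fin 2) (Fin 2) ℕ} (hM : IsSL2N M) (hT : IsSL2N T) (h1 : T ≠ 1) :
    tot M + 1 ≤ tot (M * T) := by
  obtain ⟨hM0, hM1⟩ := pos_of hM
  obtain ⟨hT0, hT1⟩ := pos_of hT
  have hne : ¬ (T 0 0 = 1 ∧ T 0 1 = 0 ∧ T 1 0 = 0 ∧ T 1 1 = 1) := by
    rintro ⟨a, b, c, d⟩
    apply h1
    ext i j
    fin_cases i <;> fin_cases j <;> simp [a, b, c, d]
  simp only [tot, Matrix.mul_apply, Fin.sum_univ_two]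
  obtain ⟨a, ha⟩ := Nat.exists_eq_add_of_le hT0
  obtain ⟨d, hd⟩ := Nat.exists_eq_add_of_le hT1
  rw [ha, hd] at hne ⊢
  generalize hp : M 0 0 = p at *
  generalize hq : M 0 1 = q at *
  generalize hr : M 1 0 = r at *
  generalize hs : M 1 1 = s at *
  generalize hb : T 0 1 = b at *
  generalize hc : T 1 0 = c at *
  have key : 1 ≤ (p + r) * a + (p + r) * b + (q + s) * c + (q + s) * d := by
    by_contra hcon
    have h2 : (p + r) * a = 0 := by omega
    have h3 : (p + r) * b = 0 := by omega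
    have h4 : (q + s) * c = 0 := by omega
    have h5 : (q + s) * d = 0 := by omega
    rcases Nat.mul_eq_zero.1 h2 with h | h <;> rcases Nat.mul_eq_zero.1 h3 with h' | h' <;>
      rcases Nat.mul_eq_zero.1 h4 with h'' | h'' <;> rcases Nat.mul_eq_zero.1 h5 with h''' | h''' <;>
      omega
  nlinarith

lemma den_ne {T : Matrix (Fin 2) (Fin 2) ℕ} (h : IsSL2N T) {z : ℂ} (hz : 0 < z.re) :
    (T 1 0 : ℂ) * z + (T 1 1 : ℂ) ≠ 0 := by
  intro h0
  have := congrArg Complex.re h0
  simp at this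
  have h1 : (1 : ℝ) ≤ T 1 1 := by exact_mod_cast (pos_of h).2
  have h2 : (0 : ℝ) ≤ T 1 0 := by positivity
  nlinarith [mul_nonneg h2 hz.le]

lemma act_mul {M T : Matrix (Fin 2) (Fin 2) ℕ} (hM : IsSL2N M) (hT : IsSL2N T) {z : ℂ}
    (hz : 0 < z.re) (hz' : 0 < (act T z).re) : act (M * T) z = act M (act T z) := by
  have h1 := den_ne hT hz
  have h2 := den_ne hM hz'
  have h3 := den_ne (mul_mem hM hT) hz
  unfold act at *
  simp only [Matrix.mul_apply, Fin.sum_univ_two] at *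
  push_cast at *
  rw [div_eq_div_iff h3 h2]
  field_simp
  ring

/-- if `z = M(w)` with `w` in the quadrant then the entries of `M` are bounded in terms of `z` -/
lemma bounded {M : Matrix (Fin 2) (Fin 2) ℕ} (hM : IsSL2N M) {z w : ℂ} (hz : 0 < z.re)
    (hzi : 0 < z.im) (hw : 0 < w.re) (hwi : 0 < w.im) (h : z = act M w) :
    (tot M : ℝ) ≤ 3 + z.re + 1 / z.im + z.re / z.im + z.re / z.im * (1 / z.im) := by
  have hden := den_ne hM hw
  obtain ⟨ha, hd⟩ := pos_of hM
  have hden2 : (M 1 0 : ℝ) * w.re + M 1 1 ≠ 0 ∨ (M 1 0 : ℝ) * w.im ≠ 0 := by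
    left
    have h1 : (1 : ℝ) ≤ M 1 1 := by exact_mod_cast hd
    have h2 : (0 : ℝ) ≤ M 1 0 := by positivity
    nlinarith [mul_nonneg h2 hw.le]
  -- z (c w + d) = a w + b
  have heq : z * ((M 1 0 : ℂ) * w + (M 1 1 : ℂ)) = (M 0 0 : ℂ) * w + (M 0 1 : ℂ) := by
    rw [h, act, div_mul_cancel₀ _ hden]
  have hre := congrArg Complex.re heq
  have him := congrArg Complex.im heq
  simp at hre him
  obtain ⟨x, y⟩ := z
  obtain ⟨u, v⟩ := w
  have hdet : (M 0 0 : ℝ) * M 1 1 = M 0 1 * M 1 0 + 1 := by exact_mod_cast hM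
  have hdR : (1 : ℝ) ≤ M 1 1 := by exact_mod_cast hd
  have haR : (1 : ℝ) ≤ M 0 0 := by exact_mod_cast ha
  have hcR0 : (0 : ℝ) ≤ M 1 0 := by positivity
  have hbR0 : (0 : ℝ) ≤ M 0 1 := by positivity
  simp only at hz hzi hw hwi hre him ⊢
  have hnat : M 1 0 = 0 ∨ 1 ≤ M 1 0 := by omega
  have hc01 : (M 1 0 : ℝ) = 0 ∧ (M 0 0 : ℝ) = 1 ∧ (M 1 1 : ℝ) = 1 ∨ (1 : ℝ) ≤ M 1 0 := by
    rcases hnat with h0 | h0
    · left
      have h1 : M 0 0 * M 1 1 = 1 := by
        have := hM
        unfold IsSL2N at this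
        rw [h0, mul_zero, zero_add] at this
        exact this
      have h2 := Nat.eq_one_of_mul_eq_one_right h1
      have h3 := Nat.eq_one_of_mul_eq_one_left h1
      rw [h0, h2, h3]; simp
    · right; exact_mod_cast h0
  unfold tot
  push_cast
  generalize (M 0 0 : ℝ) = a at *
  generalize (M 0 1 : ℝ) = b at *
  generalize (M 1 0 : ℝ) = c at *
  generalize (M 1 1 : ℝ) = d at *
  have hD : y * ((c * u + d) ^ 2 + (c * v) ^ 2) = v := by
    linear_combination (c * u + d) * him - (c * v) * hre + v * hdet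
  have hx : d * x * ((c * u + d) ^ 2 + (c * v) ^ 2) =
      b * ((c * u + d) ^ 2 + (c * v) ^ 2) + (u * (c * u + d) + c * v ^ 2) := by
    linear_combination d * (c * u + d) * hre + d * (c * v) * him +
      (u * (c * u + d) + c * v ^ 2) * hdet
  have hDpos : 0 < (c * u + d) ^ 2 + (c * v) ^ 2 := by
    have : 0 < c * u + d := by positivity
    positivity
  have hbx : b ≤ d * x := by
    have h1 : b * ((c * u + d) ^ 2 + (c * v) ^ 2) ≤ d * x * ((c * u + d) ^ 2 + (c * v) ^ 2) := by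
      rw [hx]
      have : 0 ≤ u * (c * u + d) + c * v ^ 2 := by positivity
      linarith
    exact le_of_mul_le_mul_right h1 hDpos
  have hcd : 2 * (c * d) * y ≤ 1 := by
    have h1 : 2 * (c * d) * v ≤ (c * u + d) ^ 2 + (c * v) ^ 2 := by
      have h2 : 0 ≤ c * u := by positivity
      nlinarith [sq_nonneg (d - c * v), mul_nonneg h2 (by linarith : (0 : ℝ) ≤ d)]
    have h2 : (2 * (c * d) * y) * v ≤ 1 * v := by
      calc (2 * (c * d) * y) * v = y * (2 * (c * d) * v) := by ring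
        _ ≤ y * ((c * u + d) ^ 2 + (c * v) ^ 2) := by
          apply mul_le_mul_of_nonneg_left h1 hzi.le
        _ = 1 * v := by rw [hD, one_mul]
    exact le_of_mul_le_mul_right h2 hwi
  have hy1 : 0 ≤ 1 / y := by positivity
  have hxy : 0 ≤ x / y := by positivity
  rcases hc01 with ⟨h0, h1, h2⟩ | hc1
  · have hb1 : b ≤ x := by rw [h2, one_mul] at hbx; exact hbx
    rw [h0, h1, h2]
    have : 0 ≤ x / y * (1 / y) := by positivity
    linarith
  · have hc2 : c ≤ 1 / y / 2 := by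
      rw [le_div_iff₀ (by norm_num), le_div_iff₀ hzi]
      nlinarith [mul_pos (by linarith : (0 : ℝ) < c) hzi]
    have hd2 : d ≤ 1 / y / 2 := by
      rw [le_div_iff₀ (by norm_num), le_div_iff₀ hzi]
      nlinarith [mul_pos (by linarith : (0 : ℝ) < d) hzi]
    have hb2 : b ≤ x / y / 2 := by
      calc b ≤ d * x := hbx
        _ ≤ 1 / y / 2 * x := by apply mul_le_mul_of_nonneg_right hd2 hz.le
        _ = x / y / 2 := by ring
    have ha2 : a ≤ b * c + 1 := by
      rw [← hdet]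
      nlinarith
    have hbc : b * c ≤ x / y * (1 / y) := by
      calc b * c ≤ (x / y / 2) * (1 / y / 2) := by
            apply mul_le_mul hb2 hc2 hcR0 (by positivity)
        _ ≤ x / y * (1 / y) := by nlinarith [mul_nonneg hxy hy1]
    linarith

/-- **No rootless trees.**  Let `K` be a subfield of `ℂ` that is not contained in `ℝ`.  For every
left-right pair `(L, R)` every connected component of the forest `F(L, R)` contains an orphan;
that is, the set of left-right pairs whose forest has a rootless component is empty. -/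
theorem result (K : Subfield ℂ) (_hK : ∃ z ∈ K, z.im ≠ 0) :
    {p : Matrix (Fin 2) (Fin 2) ℕ × Matrix (Fin 2) (Fin 2) ℕ |
      IsLeftRightPair K p.1 p.2 ∧
        ∃ C : (forest K p.1 p.2).ConnectedComponent, IsRootless C} = ∅ := by
  rw [Set.eq_empty_iff_forall_notMem]
  rintro ⟨L, R⟩ ⟨hLR, C, hC⟩
  simp only at hLR C hC
  obtain ⟨z, hz⟩ := C.exists_rep
  have hzC : z ∈ C.supp := hz
  -- iterate the parent map
  have key : ∀ n : ℕ, ∃ M : Matrix (Fin 2) (Fin 2) ℕ, IsSL2N M ∧ n + 2 ≤ tot M ∧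
      ∃ w : D0 K, w ∈ C.supp ∧ (z : ℂ) = act M w := by
    intro n
    induction n with
    | zero =>
      refine ⟨1, by simp [IsSL2N], by simp [tot], z, hzC, by simp [act]⟩
    | succ n ih =>
      obtain ⟨M, hM, hM2, w, hw, hzw⟩ := ih
      have hnot := hC w hw
      simp only [IsOrphan, not_forall, not_not] at hnot
      obtain ⟨w', hw'⟩ := hnot
      have hT : ∃ T, IsSL2N T ∧ T ≠ 1 ∧ (w : ℂ) = act T w' := by
        rcases hw' with h | h
        · exact ⟨L, hLR.left_mem, hLR.left_ne_one, h⟩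
        · exact ⟨R, hLR.right_mem, hLR.right_ne_one, h⟩
      obtain ⟨T, hT, hT1, hwT⟩ := hT
      refine ⟨M * T, mul_mem hM hT, ?_, w', ?_, ?_⟩
      · have := tot_mul hM hT hT1
        omega
      · by_cases hne : w' = w
        · rw [hne]; exact hw
        · rw [SimpleGraph.ConnectedComponent.mem_supp_iff] at hw ⊢
          rw [← hw, SimpleGraph.ConnectedComponent.eq]
          apply SimpleGraph.Adj.reachable
          rw [forest, SimpleGraph.fromRel_adj]
          exact ⟨hne, Or.inl hw'⟩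
      · rw [act_mul hM hT w'.2.2.1 (by rw [← hwT]; exact w.2.2.1), ← hwT]
        exact hzw
  obtain ⟨n, hn⟩ := exists_nat_gt (3 + (z : ℂ).re + 1 / (z : ℂ).im + (z : ℂ).re / (z : ℂ).im +
    (z : ℂ).re / (z : ℂ).im * (1 / (z : ℂ).im))
  obtain ⟨M, hM, hM2, w, -, hzw⟩ := key n
  have h1 := bounded hM z.2.2.1 z.2.2.2 w.2.2.1 w.2.2.2 hzw
  have h2 : ((n + 2 : ℕ) : ℝ) ≤ tot M := by exact_mod_cast hM2
  push_cast at h2
  linarith

end Pool.Agent.Results.MP_b00f03_nt.NoRootlessTree
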